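import Pool.Agent.H48.FR.Targets

/-!
Module TH of board fir_modules (MP_6a7a6f_gt): elementary properties of `th`.
-/

namespace Pool.Agent.H33.FR

open Pool.Agent.H48.FR

variable {M J : Type} [MetricSpace M]

theorem bddA (D : ℝ) (m : J → M) (h : J → ℝ) (z : M) (hD : ∀ x y : M, dist x y ≤ D)
    (hh : ∀ j, 0 ≤ h j) : BddAbove (Set.range fun j => dist (m j) z - h j) := by
  refine ⟨D, ?_⟩
  rintro _ ⟨j, rfl⟩
  have h1 := hD (m j) z
  have h2 := hh j
  change dist (m j) z - h j ≤ D
  linarith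

theorem bddB (m : J → M) (h : J → ℝ) (z : M)
    (hh : ∀ j, 0 ≤ h j) : BddBelow (Set.range fun j => dist (m j) z + h j) := by
  refine ⟨0, ?_⟩
  rintro _ ⟨j, rfl⟩
  have h1 : 0 ≤ dist (m j) z := dist_nonneg
  have h2 := hh j
  change 0 ≤ dist (m j) z + h j
  linarith

theorem th_aux (D δ : ℝ) (m m' : J → M) (h h' : J → ℝ) (j₀ j₀' : J)
    (hD : ∀ x y : M, dist x y ≤ D) (hδ : 0 ≤ δ) (hh : ∀ j, 0 ≤ h j) (hh' : ∀ j, 0 ≤ h' j)
    (h0 : h j₀ = 0) (h0' : h' j₀' = 0)
    (H : ∀ j, dist (m j) (m' j) + |h j - h' j| ≤ δ ∨ (D ≤ h j ∧ D ≤ h' j)) (z : M) :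
    th m h z ≤ th m' h' z + δ := by
  have : Nonempty J := ⟨j₀⟩
  have hs : (⨆ j, (dist (m j) z - h j)) ≤ (⨆ j, (dist (m' j) z - h' j)) + δ := by
    refine ciSup_le (fun j => ?_)
    rcases H j with H1 | ⟨H1, H2⟩
    · have h1 : dist (m' j) z - h' j ≤ ⨆ j, (dist (m' j) z - h' j) :=
        le_ciSup (f := fun j => dist (m' j) z - h' j) (bddA D m' h' z hD hh') j
      have h2 := dist_triangle (m j) (m' j) z
      have h3 := neg_abs_le (h j - h' j)
      linarith
    · have h1 : dist (m' j₀') z - h' j₀' ≤ ⨆ j, (dist (m' j) z - h' j) :=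
        le_ciSup (f := fun j => dist (m' j) z - h' j) (bddA D m' h' z hD hh') j₀'
      have h2 : 0 ≤ dist (m' j₀') z := dist_nonneg
      have h3 := hD (m j) z
      linarith
  have hi : (⨅ j, (dist (m j) z + h j)) ≤ (⨅ j, (dist (m' j) z + h' j)) + δ := by
    have : (⨅ j, (dist (m j) z + h j)) - δ ≤ ⨅ j, (dist (m' j) z + h' j) := by
      refine le_ciInf (fun j => ?_)
      rcases H j with H1 | ⟨H1, H2⟩
      · have h1 : (⨅ j, (dist (m j) z + h j)) ≤ dist (m j) z + h j :=
          ciInf_le (f := fun j => dist (m j) z + h j) (bddB m h z hh) j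
        have h2 := dist_triangle (m j) (m' j) z
        have h3 := le_abs_self (h j - h' j)
        linarith
      · have h1 : (⨅ j, (dist (m j) z + h j)) ≤ dist (m j₀) z + h j₀ :=
          ciInf_le (f := fun j => dist (m j) z + h j) (bddB m h z hh) j₀
        have h2 : 0 ≤ dist (m' j) z := dist_nonneg
        have h3 := hD (m j₀) z
        linarith
    linarith
  unfold th
  linarith

theorem pf_TH : T_TH := by
  refine ⟨?_, ?_, ?_⟩
  · intro M J _ D δ m m' h h' j₀ j₀' hD hδ hh hh' h0 h0' H z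
    rw [abs_le]
    have h1 := th_aux D δ m m' h h' j₀ j₀' hD hδ hh hh' h0 h0' H z
    have h2 := th_aux D δ m' m h' h j₀' j₀ hD hδ hh' hh h0' h0 (fun j => by
      rw [dist_comm, abs_sub_comm]
      rcases H j with H1 | ⟨H1, H2⟩
      · exact Or.inl H1
      · exact Or.inr ⟨H2, H1⟩) z
    constructor <;> linarith
  · intro M J _ D r m h j₀ hD hr hh h0 H z
    have : Nonempty J := ⟨j₀⟩
    have h1 : dist (m j₀) z - h j₀ ≤ ⨆ j, (dist (m j) z - h j) :=
      le_ciSup (f := fun j => dist (m j) z - h j) (bddA D m h z hD hh) j₀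
    have h2 : (⨆ j, (dist (m j) z - h j)) ≤ dist (m j₀) z + r := by
      refine ciSup_le (fun j => ?_)
      have h3 := dist_triangle (m j) (m j₀) z
      have h4 := H j
      linarith
    have h5 : (⨅ j, (dist (m j) z + h j)) ≤ dist (m j₀) z + h j₀ :=
      ciInf_le (f := fun j => dist (m j) z + h j) (bddB m h z hh) j₀
    have h6 : dist (m j₀) z - r ≤ ⨅ j, (dist (m j) z + h j) := by
      refine le_ciInf (fun j => ?_)
      have h3 := dist_triangle_left (m j₀) z (m j)
      have h4 := H j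
      linarith
    rw [abs_le]
    unfold th
    constructor <;> linarith
  · intro M J J' _ m h m' h' H1 H2
    funext z
    unfold th
    have e1 : (⨆ j, (dist (m j) z - h j)) = ⨆ j, (dist (m' j) z - h' j) := by
      unfold iSup
      congr 1
      ext t
      constructor
      · rintro ⟨j, rfl⟩
        obtain ⟨j', h3, h4⟩ := H1 j
        exact ⟨j', by change dist (m' j') z - h' j' = dist (m j) z - h j; rw [h3, h4]⟩
      · rintro ⟨j, rfl⟩
        obtain ⟨j', h3, h4⟩ := H2 j
        exact ⟨j', by change dist (m j') z - h j' = dist (m' j) z - h' j; rw [h3, h4]⟩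
    have e2 : (⨅ j, (dist (m j) z + h j)) = ⨅ j, (dist (m' j) z + h' j) := by
      unfold iInf
      congr 1
      ext t
      constructor
      · rintro ⟨j, rfl⟩
        obtain ⟨j', h3, h4⟩ := H1 j
        exact ⟨j', by change dist (m' j') z + h' j' = dist (m j) z + h j; rw [h3, h4]⟩
      · rintro ⟨j, rfl⟩
        obtain ⟨j', h3, h4⟩ := H2 j
        exact ⟨j', by change dist (m j') z + h j' = dist (m' j) z + h' j; rw [h3, h4]⟩
    rw [e1, e2]

end Pool.Agent.H33.FR
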