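import Pool.Agent.H48.FR.Targets

/-!
Module FA of board fir_modules (MP_6a7a6f_gt): two points of maximum of `FF x s` are not almost
antipodal.
-/

namespace Pool.Agent.H33.FR

open Pool.Agent.H48.FR

variable {𝕜 : Type} [NormedDivisionRing 𝕜] [StarRing 𝕜] [NormedAlgebra ℝ 𝕜] [PF 𝕜] {n : ℕ}

theorem FF_neg (x : Fin (n + 1) → 𝕜) (s : ℝ) (a : 𝕜) : FF x s (-a) = -FF x s a := by
  unfold FF
  rw [neg_mul, re_neg]
  have : ∑ j : Fin n, re ((-a * vv x j) ^ (2 * (j : ℕ) + 3)) =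
      -∑ j : Fin n, re ((a * vv x j) ^ (2 * (j : ℕ) + 3)) := by
    rw [← Finset.sum_neg_distrib]
    refine Finset.sum_congr rfl (fun j _ => ?_)
    rw [neg_mul, Odd.neg_pow ⟨(j : ℕ) + 1, by ring⟩, re_neg]
  rw [this]
  ring

theorem tp_comb (N : ℕ) (a b : ℝ) (c0 : ℕ → ℝ) (cj : Fin n → ℕ → ℝ) (θ : ℝ) :
    a * tp N c0 θ + b * ∑ j, tp N (cj j) θ = tp N (fun k => a * c0 k + b * ∑ j, cj j k) θ := by
  unfold tp
  rw [Finset.sum_comm, Finset.mul_sum, Finset.mul_sum, ← Finset.sum_add_distrib]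
  refine Finset.sum_congr rfl (fun k _ => ?_)
  rw [add_mul, ← Finset.sum_mul]
  ring

/-- `FF x s` along a great circle -/
theorem FF_tp (hWC : T_WC) (x : Fin (n + 1) → 𝕜) (s : ℝ) (q w : 𝕜) :
    ∃ c : ℕ → ℝ, ∀ θ : ℝ, FF x s (rs (Real.cos θ) * q + rs (Real.sin θ) * w) =
      tp (2 * n + 1) c θ := by
  have h0 : ∃ c : ℕ → ℝ, ∀ θ : ℝ,
      re ((rs (Real.cos θ) * q + rs (Real.sin θ) * w) * x 0) = tp (2 * n + 1) c θ := by
    obtain ⟨c, hc⟩ := hWC 𝕜 (q * x 0) (w * x 0) 1 n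
    refine ⟨c, fun θ => ?_⟩
    have := hc θ
    rw [pow_one, show 1 + 2 * n = 2 * n + 1 by ring] at this
    rw [← this, add_mul, mul_assoc, mul_assoc]
  have hj : ∀ j : Fin n, ∃ c : ℕ → ℝ, ∀ θ : ℝ,
      re (((rs (Real.cos θ) * q + rs (Real.sin θ) * w) * vv x j) ^ (2 * (j : ℕ) + 3)) =
        tp (2 * n + 1) c θ := by
    intro j
    obtain ⟨c, hc⟩ := hWC 𝕜 (q * vv x j) (w * vv x j) (2 * (j : ℕ) + 3) (n - 1 - j)
    refine ⟨c, fun θ => ?_⟩
    have := hc θ
    rw [show 2 * (j : ℕ) + 3 + 2 * (n - 1 - j) = 2 * n + 1 by have := j.2; omega] at this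
    rw [← this, add_mul, mul_assoc, mul_assoc]
  obtain ⟨c0, hc0⟩ := h0
  choose cj hcj using hj
  refine ⟨fun k => (1 - s) * c0 k + s * ∑ j, cj j k, fun θ => ?_⟩
  rw [← tp_comb, ← hc0 θ]
  unfold FF
  congr 2
  exact Finset.sum_congr rfl (fun j _ => hcj j θ)

theorem pf_FA (hWC : T_WC) (hRZ : T_RZ) : T_FA := by
  intro 𝕜 _ _ _ _ n x s q q' hn hq hq' hmax hmax' hpos
  by_contra hcon
  push Not at hcon
  have hM : FF x s q' = FF x s q := le_antisymm (hmax q' hq') (hmax' q hq)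
  have hab : ∀ a : 𝕜, ‖a‖ = 1 → |FF x s a| ≤ FF x s q := by
    intro a ha
    rw [abs_le]
    refine ⟨?_, hmax a ha⟩
    have h1 := hmax (-a) (by rw [norm_neg]; exact ha)
    rw [FF_neg] at h1
    linarith
  have hqq : re (q * star q) = 1 := by rw [re_self_mul_star, hq, one_pow]
  set u : 𝕜 := -q' with hu
  have hun : ‖u‖ = 1 := by rw [hu, norm_neg]; exact hq'
  have hFu : FF x s u = -FF x s q := by rw [hu, FF_neg, hM]
  set c : ℝ := re (u * star q) with hc
  have hc1 : c = -re (q * star q') := by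
    rw [hc, hu, neg_mul, re_neg, ← re_star (q * star q'), star_mul, star_star]
  have hcn : ‖u * star q‖ = 1 := by rw [norm_mul, norm_star', hun, hq, one_mul]
  have hcabs : |c| ≤ 1 := by
    have := abs_re_le (u * star q)
    rwa [hcn] at this
  have hcl := (abs_le.mp hcabs).1
  have hcr := (abs_le.mp hcabs).2
  have hcgt : Real.cos (Real.pi / (2 * n + 1)) < c := by rw [hc1]; linarith
  set g : ℝ := Real.arccos c with hg
  have hcg : Real.cos g = c := Real.cos_arccos hcl hcr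
  have hg0 : 0 ≤ g := Real.arccos_nonneg c
  have hgpi : g ≤ Real.pi := Real.arccos_le_pi c
  have hglt : g < Real.pi / (2 * n + 1) := by
    by_contra h1
    push Not at h1
    have h2 := Real.cos_le_cos_of_nonneg_of_le_pi (by positivity) hgpi h1
    rw [hcg] at h2
    linarith
  have hgpos : 0 < g := by
    rcases hg0.lt_or_eq with h1 | h1
    · exact h1
    · exfalso
      have h2 : c = 1 := by rw [← hcg, ← h1, Real.cos_zero]
      have h3 : u * star q = 1 := by
        have h4 := eq_of_re_eq_norm (a := u * star q) (by rw [hcn]; exact h2)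
        rwa [hcn, map_one] at h4
      have h5 : u = q := by
        have h6 : u * (star q * q) = q := by rw [← mul_assoc, h3, one_mul]
        rwa [star_mul_self, hq, one_pow, map_one, mul_one] at h6
      rw [h5] at hFu
      linarith
  have hsin : 0 < Real.sin g := by
    apply Real.sin_pos_of_pos_of_lt_pi hgpos
    refine lt_of_lt_of_le hglt ?_
    apply div_le_self Real.pi_pos.le
    have : (0 : ℝ) ≤ n := Nat.cast_nonneg n
    linarith
  set w : 𝕜 := rs (Real.sin g)⁻¹ * (u + rs (-Real.cos g) * q) with hw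
  have hv2 : ‖u + rs (-Real.cos g) * q‖ ^ 2 = Real.sin g ^ 2 := by
    rw [H48.FR.norm_add_sq, hun, norm_mul, norm_rs, hq, star_mul, star_rs, ← mul_assoc, re_mul_rs, ← hc,
      ← hcg, abs_neg, mul_one, sq_abs]
    have := Real.sin_sq_add_cos_sq g
    linarith
  have hvn : ‖u + rs (-Real.cos g) * q‖ = Real.sin g := by
    rw [sq_eq_sq₀ (norm_nonneg _) hsin.le] at hv2
    exact hv2
  have hwn : ‖w‖ = 1 := by
    rw [hw, norm_mul, norm_rs, hvn, abs_of_pos (inv_pos.mpr hsin), inv_mul_cancel₀ hsin.ne']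
  have hwq : re (w * star q) = 0 := by
    rw [hw, mul_assoc, re_rs_mul, add_mul, re_add, mul_assoc, re_rs_mul, hqq, ← hc, hcg]
    ring
  have hqw : re (q * star w) = 0 := by
    rw [← re_star (q * star w), star_mul, star_star]
    exact hwq
  have hat : ∀ t : ℝ, ‖rs (Real.cos t) * q + rs (Real.sin t) * w‖ = 1 := by
    intro t
    have h1 : ‖rs (Real.cos t) * q + rs (Real.sin t) * w‖ ^ 2 = 1 := by
      rw [H48.FR.norm_add_sq, norm_mul, norm_mul, norm_rs, norm_rs, hq, hwn, mul_one, mul_one, sq_abs,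
        sq_abs, star_mul, star_rs, ← mul_assoc, re_mul_rs, mul_assoc, re_rs_mul, hqw]
      have := Real.sin_sq_add_cos_sq t
      linarith
    have h2 : ‖rs (Real.cos t) * q + rs (Real.sin t) * w‖ ^ 2 = 1 ^ 2 := by rw [h1, one_pow]
    exact (sq_eq_sq₀ (norm_nonneg _) zero_le_one).mp h2
  have ha0 : rs (Real.cos 0) * q + rs (Real.sin 0) * w = q := by
    rw [Real.cos_zero, Real.sin_zero, rs, rs, map_one, map_zero, one_mul, zero_mul, add_zero]
  have hag : rs (Real.cos g) * q + rs (Real.sin g) * w = u := by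
    have h1 : rs (Real.sin g) * w = u + rs (-Real.cos g) * q := by
      rw [hw, ← mul_assoc, rs, rs, ← map_mul, mul_inv_cancel₀ hsin.ne', map_one, one_mul]
    rw [h1, rs, rs, map_neg, neg_mul]
    abel
  obtain ⟨cc, hcc⟩ := FF_tp hWC x s q w
  refine hRZ (2 * n + 1) cc (FF x s q) g (by omega) hpos ?_ ?_ hgpos ?_ ?_
  · intro θ
    rw [← hcc θ]
    exact hab _ (hat θ)
  · rw [← hcc 0, ha0]
  · push_cast
    exact hglt
  · rw [← hcc g, hag, hFu]

end Pool.Agent.H33.FR
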